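import Pool.Agent.H44.JoinA

open Pool.Agent.H44.GW

theorem Pool.Agent.Results.MP_2fa7ec_pr.Q1False.result :
    ∃ μ : ℕ × ℕ → PMF (ℕ × ℕ →₀ ℕ), Irred μ ∧
      (∃ x, (μ x).toMeasure {f | f.sum (fun _ k => k) = 1} < 1) ∧
      (Set.range (qExt μ)).Countable ∧ (Set.range (qExt μ)).Infinite :=
  Pool.Agent.H44.JoinA.result.2
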