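import Pool.Agent.H44.JoinA

open Pool.Agent.H44.GW

theorem Pool.Agent.Results.MP_2fa7ec_pr.Q2True.result :
    ∀ (X : Type) [Countable X] (μ : X → PMF (X →₀ ℕ)), Irred μ →
      Fix μ ⊆ {qExt μ Set.univ, 1} ∨ Cardinal.mk (Fix μ) = Cardinal.continuum :=
  Pool.Agent.H44.JoinA.result.1
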